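import Pool.Agent.H88.MC.Nef

/-!
# Finite certificates for the nef cone conjecture

For a finite set `F` of automorphisms of `(X/Z, Δ)` let `D_F` be the cone of all nef classes, effective
or not, whose degree is not decreased by an element of `F`. It is defined by finitely many linear
inequalities in the nef cone. The nef cone conjecture for `(X/Z, Δ)` holds if and only if for some
finite `F` the cone `D_F` is contained in a rational polyhedral cone in the effective nef cone, and this
can be checked locally at the nonzero points of `D_F`. So the conjecture holds for a given pair if and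
only if it has a finite certificate.

The proof of the existence uses that the conjecture implies that the Dirichlet domain, defined by all
automorphisms, is in a rational polyhedral cone in the effective nef cone (this is close to a theorem of
Looijenga), that it is already defined by finitely many of them within a slightly larger rational
polyhedral cone, and a continuity argument along the segments from a fixed point of the Dirichlet
domain to the points of `D_F`, which are not assumed to be effective.
-/

set_option autoImplicit false

open scoped NNReal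

open Pool.Agent.E8helper40.CC

namespace Pool.Agent.Results.MP_20d318_ag.FiniteCertificates

open Pool.Agent.H88.NC

/-- **Finite certificates for the nef cone conjecture.** Let `(X/Z, Δ)` be a pair which has a degree
(if `Z` is a point, all pairs have one). The following are equivalent:
(a) the nef cone conjecture holds for `(X/Z, Δ)`;
(b) `X` has a finite certificate;
(c) there is a certificate `(F, S)` such that the elements of `D_F` are the nef classes whose degree is
minimal in the orbit under all automorphisms;
(d) there is a finite set `F` such that every nonzero element of `D_F` has a neighbourhood whose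
intersection with `D_F` is in the cone generated by finitely many integral classes of the effective
nef cone.
If `(F, S)` is a certificate then the translates of the cone generated by `S` under the group
generated by `F` cover the effective nef cone, and a nef class is effective if and only if all
sequences which begin with it and continue by applying an element of `F` which decreases the degree
are finite. -/
theorem result {n : ℕ} (X : Pair n) (hX : X.IsPair) (deg : (Fin n → ℝ) →ₗ[ℝ] ℝ)
    (hdeg : X.IsDegree deg) :
    List.TFAE [
      X.NefConeConjecture,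
      ∃ (F : Finset X.Aut) (S : Finset (Fin n → ℝ)), X.IsCertificate deg F S,
      ∃ (F : Finset X.Aut) (S : Finset (Fin n → ℝ)), X.IsCertificate deg F S ∧
        X.minCone deg F = {x | x ∈ X.Nef ∧ ∀ g : X.Aut, deg x ≤ deg (X.push g x)},
      ∃ F : Finset X.Aut, ∀ x ∈ X.minCone deg F, x ≠ 0 → ∃ S : Finset (Fin n → ℝ),
        (∀ v ∈ S, IsInt v ∧ v ∈ X.Nef ∩ X.Eff) ∧
          ∃ U ∈ nhds x, U ∩ X.minCone deg F ⊆ cone (S : Set (Fin n → ℝ))] ∧
    ∀ (F : Finset X.Aut) (S : Finset (Fin n → ℝ)), X.IsCertificate deg F S →
      X.Nef ∩ X.Eff = (⋃ g ∈ Subgroup.closure (F : Set X.Aut),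
        X.push g '' cone (S : Set (Fin n → ℝ))) ∧
      ∀ x ∈ X.Nef, (x ∈ X.Eff ↔ ¬ ∃ y : ℕ → (Fin n → ℝ), y 0 = x ∧
        ∀ k, ∃ g ∈ F, y (k + 1) = X.push g (y k) ∧ deg (y (k + 1)) < deg (y k)) := by
  have hX' := hX.toMov
  have hdeg' := hdeg.toMov
  constructor
  · tfae_have 1 → 3 := by
      intro h
      obtain ⟨F, S, hc, hF⟩ := hX'.exists_certificate hdeg' h
      exact ⟨F, S, hc, Set.Subset.antisymm (fun x hx => ⟨hx.1, hF x hx⟩)
        fun x hx => ⟨hx.1, fun g _ => hx.2 g⟩⟩
    tfae_have 3 → 2 := by
      rintro ⟨F, S, hc, -⟩
      exact ⟨F, S, hc⟩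
    tfae_have 2 → 1 := by
      rintro ⟨F, S, hc⟩
      refine hX'.mcc_of_cover hdeg' hc.1 fun x hx hxE => ?_
      obtain ⟨g, -, y, hy, hxy⟩ := hX'.cover_closure hdeg' hc x hx hxE
      exact ⟨g, y, hy, hxy⟩
    tfae_have 2 → 4 := by
      rintro ⟨F, S, hc⟩
      exact ⟨F, fun x _ _ => ⟨S, hc.1, Set.univ, Filter.univ_mem,
        fun y hy => hc.2 hy.2⟩⟩
    tfae_have 4 → 2 := by
      rintro ⟨F, hF⟩
      obtain ⟨S, hS⟩ := Pool.Agent.H88.MC.Pair.certificate_of_local hX' hdeg' hF
      exact ⟨F, S, hS⟩
    tfae_finish
  · intro F S hc
    refine ⟨hX'.union_of_cover hdeg' _ hc.1 (hX'.cover_closure hdeg' hc), fun x hx => ?_⟩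
    have hc2 : ∀ x ∈ X.toMov.K, (∀ g ∈ F, deg x ≤ deg (hX'.rep g x)) →
        x ∈ Submodule.span ℝ≥0 (S : Set (Fin n → ℝ)) := by
      intro x hx hxF
      have h1 : x ∈ X.Nef := Pool.Agent.H88.MC.Pair.mem_K (X := X.toMov) |>.1 hx
      exact hc.2 (show x ∈ X.minCone deg F from ⟨h1, hxF⟩)
    have hx' : x ∈ X.toMov.K := Pool.Agent.H88.MC.Pair.mem_K (X := X.toMov) |>.2 hx
    exact (hX'.dat hdeg').greedy (fun v hv => (hc.1 v hv).2.2) hc2 hx'

end Pool.Agent.Results.MP_20d318_ag.FiniteCertificates
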