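import Pool.Agent.H66.LD.Nef

/-!
# A Poincaré polyhedron theorem for the nef cone conjecture

Let `Π i`, `i ∈ I`, be finitely many rational polyhedral cones in the effective nef cone of
`(X/Z, Δ)`, one of them with interior points. If the translates of the `Π i` under a group of
automorphisms cover a neighbourhood of each class of the `Π i` in the interior of the nef cone, except
those in finitely many subspaces of codimension at least 2, then they cover the whole effective nef
cone, and the nef cone conjecture holds. So it is enough that the walls of the `Π i` are paired by
automorphisms. Nothing is assumed at the faces of codimension at least 2 (there is no cycle condition)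
and at the boundary of the nef cone. Conversely, if the conjecture holds then there is such a cone.

Proof. Along a segment in the interior of the nef cone only finitely many translates of the `Π i`
occur, by the Siegel property. A segment from a general point of one of the `Π i` to a given point
meets none of the countably many translates of the exceptional subspaces before its end point, so it
is covered. For an effective class `x` at the boundary choose the translate of minimal degree, and
approach it by classes of the Dirichlet domain in the interior; these are in a rational polyhedral
cone, and again finitely many translates of the `Π i` suffice.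
-/

set_option autoImplicit false

open scoped NNReal

open Pool.Agent.E8helper40.CC

namespace Pool.Agent.Results.MP_20d318_ag.PairedWalls

open Pool.Agent.H88.NC Pool.Agent.H66.LDN

/-- **A Poincaré polyhedron theorem for the nef cone conjecture.** Let `(X/Z, Δ)` be a pair which has
a degree (if `Z` is a point, all pairs have one). (1) If the translates under `B` of the cones
generated by the `S i`, `i ∈ I`, `I` finite, cover locally, outside finitely many subspaces of
codimension at least 2, then they cover the effective nef cone, and the nef cone conjecture holds.
(2) The same conclusion holds if the walls of the cones generated by the `S i` are paired by elements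
of `B`. (3) The conjecture holds if and only if there is a finite set `S` as in (1), `I` one point,
for the group of all automorphisms. -/
theorem result {n : ℕ} (X : Pair n) (hX : X.IsPair) (deg : (Fin n → ℝ) →ₗ[ℝ] ℝ)
    (hdeg : X.IsDegree deg) :
    (∀ (B : Subgroup X.Aut) (I : Type) [Fintype I] (S : I → Finset (Fin n → ℝ))
      (Ls : Finset (Submodule ℝ (Fin n → ℝ))), LocallyCovers X B S Ls →
        X.Nef ∩ X.Eff = (⋃ i, ⋃ g ∈ B, X.push g '' cone (S i : Set (Fin n → ℝ))) ∧
          X.NefConeConjecture) ∧
    (∀ (B : Subgroup X.Aut) (I : Type) [Fintype I] (S : I → Finset (Fin n → ℝ))
      (Λ : I → Finset ((Fin n → ℝ) →ₗ[ℝ] ℝ)), PairedWalls X B S Λ →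
        X.Nef ∩ X.Eff = (⋃ i, ⋃ g ∈ B, X.push g '' cone (S i : Set (Fin n → ℝ))) ∧
          X.NefConeConjecture) ∧
    (X.NefConeConjecture ↔ ∃ (S : Finset (Fin n → ℝ))
      (Ls : Finset (Submodule ℝ (Fin n → ℝ))), LocallyCovers X ⊤ (fun _ : Unit => S) Ls) := by
  refine ⟨fun B I _ S Ls h => h.toMov.cov hX.toMov hdeg.toMov, fun B I _ S Λ h => ?_,
    fun h => ?_, ?_⟩
  · obtain ⟨Ls, hL⟩ := h.toMov.locallyCovers hX.toMov
    exact hL.cov hX.toMov hdeg.toMov
  · obtain ⟨S, hS⟩ := Pool.Agent.H66.LD.exists_locallyCovers hX.toMov (Pair.conj_iff.2 h)
    exact ⟨S, ∅, LocallyCovers.ofMov hS⟩
  · rintro ⟨S, Ls, h⟩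
    exact (h.toMov.cov hX.toMov hdeg.toMov).2

end Pool.Agent.Results.MP_20d318_ag.PairedWalls
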