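import Pool.Agent.H88.MC.Nef
import Pool.Agent.H28.MC.Chambers

/-!
# A wall criterion for the nef cone conjecture

Let `(X, Δ)` be a pair, `Z` a point, and let `Π_i` be finitely many rational polyhedral chambers in the
effective nef cone with an ample class `H_i` in the interior of `Π_i`. Let
`w_i(x) = x · H_i^(dim X - 1) / (H_i^(dim X))^((dim X - 1) / dim X)`. Suppose that for each wall `W` of each
`Π_i`, `W` is in the boundary of the nef cone, or there are an automorphism `g` of `(X, Δ)` and a chamber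
`Π_j` such that `g H_i` is not a multiple of `H_j` and `w_j(g x) ≤ w_i(x)` for the classes `x` in `W`. Then
the nef cone conjecture holds for `(X, Δ)`, and the images of the `Π_i` under the group generated by these
automorphisms cover the effective nef cone. Conversely, if the nef cone conjecture holds, then there is
such a family, with one chamber, for each ample `H`.

The condition holds (with `j = i`) if `W` spans a hyperplane which is fixed pointwise by an automorphism
`g` that acts nontrivially on `N^1(X)`, for instance by the covering involution of a finite morphism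
`X → Y` of degree two with Picard number `ρ(Y) = ρ(X) - 1`.

Nothing is assumed about the degree of `g H_i`, on the orders of the automorphisms, on the adjacency of the
chambers and their translates, or on classes which are not in a wall of one of the chambers: the weight
of `H_i` increases by the inequality of Khovanskii and Teissier and its case of equality, which are proved
here (`kt`, `kt_eq`) from the Hodge index theorem, a property of the intersection numbers.
-/

set_option autoImplicit false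

open scoped NNReal

open Pool.Agent.E8helper40.CC

namespace Pool.Agent.Results.MP_20d318_ag.ReflectionCriterion

open Pool.Agent.H88.NC

variable {n d : ℕ}

/-- `x · H^(d + 1)` -/
def mixed (I : MultilinearMap ℝ (fun _ : Fin (d + 2) => (Fin n → ℝ)) ℝ) (x H : Fin n → ℝ) : ℝ :=
  I (Function.update (fun _ => H) 0 x)

/-- `H^(d + 2)` -/
def top (I : MultilinearMap ℝ (fun _ : Fin (d + 2) => (Fin n → ℝ)) ℝ) (H : Fin n → ℝ) : ℝ :=
  I fun _ => H

/-- Properties of the intersection numbers `D_0 ⋯ D_(d+1)` of `d + 2 = dim X` divisor classes (`Z` a point,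
`X` projective, `dim X ≥ 2`): the intersection numbers of integral divisors have a common denominator, they
are invariant under the automorphisms, `E · H^(d+1) ≥ 0` for effective `E` and ample `H`, `x · H^(d+1) > 0` for
nef `x ≠ 0` and ample `H`, the intersection numbers of ample classes are positive, and the Hodge index
theorem: `(A · B · C)^2 ≥ (A · A · C) (B · B · C)` for ample `A`, `B` and products `C` of `d` ample classes, with
equality only if `A` and `B` are proportional (the classes `A` and `B` are in any two places `p ≠ q`). -/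
structure IsIntersection (X : Pair n)
    (I : MultilinearMap ℝ (fun _ : Fin (d + 2) => (Fin n → ℝ)) ℝ) : Prop where
  bounded : ∃ N : ℕ, 0 < N ∧ ∀ v : Fin (d + 2) → (Fin n → ℝ), (∀ i, IsInt (v i)) →
    ∃ m : ℤ, (N : ℝ) * I v = m
  push : ∀ (g : X.Aut) (v : Fin (d + 2) → (Fin n → ℝ)), I (fun i => X.push g (v i)) = I v
  eff : ∀ E ∈ X.eff, ∀ H ∈ X.amp, 0 ≤ mixed I E H
  nef : ∀ x ∈ X.Nef, x ≠ 0 → ∀ H ∈ X.amp, 0 < mixed I x H
  pos : ∀ v : Fin (d + 2) → (Fin n → ℝ), (∀ i, v i ∈ X.amp ∧ v i ≠ 0) → 0 < I v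
  index : ∀ (v : Fin (d + 2) → (Fin n → ℝ)), (∀ i, v i ∈ X.amp) → ∀ p q, p ≠ q →
    ∀ A ∈ X.amp, ∀ B ∈ X.amp,
      I (Function.update (Function.update v p A) q A) *
        I (Function.update (Function.update v p B) q B) ≤
          I (Function.update (Function.update v p A) q B) ^ 2
  index_eq : ∀ (v : Fin (d + 2) → (Fin n → ℝ)), (∀ i, v i ∈ X.amp) → ∀ p q, p ≠ q →
    ∀ A ∈ X.amp, ∀ B ∈ X.amp,
      I (Function.update (Function.update v p A) q A) *
        I (Function.update (Function.update v p B) q B) =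
          I (Function.update (Function.update v p A) q B) ^ 2 → ∃ c : ℝ, A = c • B

/-- The chamber of the nef classes `x` with `m x ≥ 0` for all `m ∈ Λ` is contained in the cone generated by
`S`, a finite set of integral classes in the effective nef cone. -/
def IsChamber (X : Pair n) (S : Finset (Fin n → ℝ)) (Λ : Finset ((Fin n → ℝ) →ₗ[ℝ] ℝ)) : Prop :=
  (∀ v ∈ S, IsInt v ∧ v ∈ X.Nef ∩ X.Eff) ∧
    ∀ x ∈ X.Nef, (∀ m ∈ Λ, 0 ≤ m x) → x ∈ cone (S : Set (Fin n → ℝ))

/-- The root of order `d + 2` of `(H^(d + 2))^(d + 1)`. -/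
noncomputable def root (I : MultilinearMap ℝ (fun _ : Fin (d + 2) => (Fin n → ℝ)) ℝ)
    (H : Fin n → ℝ) : ℝ :=
  (top I H ^ (d + 1)) ^ (((d + 2 : ℕ) : ℝ)⁻¹)

/-- `H` is on the positive side of the wall `m = 0` of the chamber given by `Λ`, `g H` is not a multiple of
`H'`, and `w'(g x) ≤ w(x)` for the classes `x` in the wall, where, with `N = d + 2 = dim X`,
`w(x) = x · H^(N-1) / (H^N)^((N-1)/N)` and `w'(x) = x · H'^(N-1) / (H'^N)^((N-1)/N)`. -/
def IsWall (X : Pair n) (I : MultilinearMap ℝ (fun _ : Fin (d + 2) => (Fin n → ℝ)) ℝ)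
    (H : Fin n → ℝ) (Λ : Finset ((Fin n → ℝ) →ₗ[ℝ] ℝ)) (m : (Fin n → ℝ) →ₗ[ℝ] ℝ) (g : X.Aut)
    (H' : Fin n → ℝ) : Prop :=
  0 < m H ∧ (∀ c : ℝ, X.push g H ≠ c • H') ∧
    ∀ x ∈ X.Nef, m x = 0 → (∀ m' ∈ Λ, 0 ≤ m' x) →
      mixed I (X.push g x) H' / root I H' ≤ mixed I x H / root I H

lemma amp_nef (X : Pair n) {x : Fin n → ℝ} (hx : x ∈ X.amp) : x ∈ X.Nef :=
  subset_closure (Submodule.subset_span hx)

lemma mixed_self (I : MultilinearMap ℝ (fun _ : Fin (d + 2) => (Fin n → ℝ)) ℝ) (H : Fin n → ℝ) :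
    mixed I H H = top I H := by
  unfold mixed top
  congr 1
  exact Function.update_eq_self 0 (fun _ : Fin (d + 2) => H)

lemma mixed_smul (I : MultilinearMap ℝ (fun _ : Fin (d + 2) => (Fin n → ℝ)) ℝ) (c : ℝ)
    (x H : Fin n → ℝ) : mixed I (c • x) H = c * mixed I x H := by
  unfold mixed
  rw [MultilinearMap.map_update_smul]
  rfl

variable {X : Pair n} {I : MultilinearMap ℝ (fun _ : Fin (d + 2) => (Fin n → ℝ)) ℝ}
  {H : Fin n → ℝ}

lemma mixed_push (hI : IsIntersection X I) (g : X.Aut) (x H : Fin n → ℝ) :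
    mixed I (X.push g x) (X.push g H) = mixed I x H := by
  rw [mixed, mixed, ← hI.push g (Function.update (fun _ => H) 0 x)]
  congr 1
  funext i
  by_cases hi : i = 0
  · subst hi
    rw [Function.update_self, Function.update_self]
  · rw [Function.update_of_ne hi, Function.update_of_ne hi]

lemma top_push (hI : IsIntersection X I) (g : X.Aut) (H : Fin n → ℝ) :
    top I (X.push g H) = top I H := hI.push g fun _ => H

lemma top_zero : top I (0 : Fin n → ℝ) = 0 := MultilinearMap.map_zero I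

lemma top_pos (hI : IsIntersection X I) (hH : H ∈ X.amp) (hH0 : H ≠ 0) : 0 < top I H := by
  rw [← mixed_self]
  exact hI.nef H (amp_nef X hH) hH0 H hH

lemma root_pow (hV : 0 < top I H) : root I H ^ (d + 2) = top I H ^ (d + 1) :=
  Real.rpow_inv_natCast_pow (pow_nonneg hV.le (d + 1)) (Nat.succ_ne_zero (d + 1))

lemma root_pos (hV : 0 < top I H) : 0 < root I H := Real.rpow_pos_of_pos (pow_pos hV (d + 1)) _

lemma ne_zero (hV : 0 < top I H) : H ≠ 0 := by
  rintro rfl
  rw [top_zero] at hV
  exact lt_irrefl _ hV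

lemma push_ne_zero (hI : IsIntersection X I) (hV : 0 < top I H) (g : X.Aut) :
    X.push g H ≠ 0 := by
  intro h
  have h1 := top_push hI g H
  rw [h, top_zero] at h1
  exact hV.ne h1

/-- `A` in the first `i` places, `H` in the others. -/
def arr (d : ℕ) (A H : Fin n → ℝ) (i : ℕ) : Fin (d + 2) → (Fin n → ℝ) := fun j => if (j : ℕ) < i then A else H

lemma arr_zero (A H : Fin n → ℝ) : arr d A H 0 = fun _ => H := by
  funext j
  simp [arr]

lemma arr_one (A H : Fin n → ℝ) : arr d A H 1 = Function.update (fun _ => H) 0 A := by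
  funext j
  unfold arr
  by_cases hj : j = 0
  · subst hj
    simp
  · rw [Function.update_of_ne hj, if_neg]
    intro h
    exact hj (Fin.ext (by simpa using h))

lemma arr_top (A H : Fin n → ℝ) : arr d A H (d + 2) = fun _ => A := by
  funext j
  unfold arr
  rw [if_pos j.2]

lemma arr_amp {X : Pair n} {A H : Fin n → ℝ} (hA : A ∈ X.amp) (hH : H ∈ X.amp) (i : ℕ)
    (j : Fin (d + 2)) : arr d A H i j ∈ X.amp := by
  unfold arr
  split_ifs
  · exact hA
  · exact hH

lemma arr_update (A H : Fin n → ℝ) {i : ℕ} (hi : i < d + 1) :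
    Function.update (Function.update (arr d A H (i + 1)) ⟨i, by omega⟩ A) ⟨i + 1, by omega⟩ A =
      arr d A H (i + 2) ∧
    Function.update (Function.update (arr d A H (i + 1)) ⟨i, by omega⟩ H) ⟨i + 1, by omega⟩ H =
      arr d A H i ∧
    Function.update (Function.update (arr d A H (i + 1)) ⟨i, by omega⟩ A) ⟨i + 1, by omega⟩ H =
      arr d A H (i + 1) := by
  refine ⟨?_, ?_, ?_⟩ <;>
  · funext j
    by_cases h1 : j = ⟨i + 1, by omega⟩
    · subst h1
      rw [Function.update_self]
      unfold arr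
      split_ifs with h <;> first | rfl | (exfalso; simp only at h; omega)
    · rw [Function.update_of_ne h1]
      by_cases h2 : j = ⟨i, by omega⟩
      · subst h2
        rw [Function.update_self]
        unfold arr
        split_ifs with h <;> first | rfl | (exfalso; simp only at h; omega)
      · refine (Function.update_of_ne h2 _ _).trans ?_
        have h1' : (j : ℕ) ≠ i + 1 := fun h => h1 (Fin.ext h)
        have h2' : (j : ℕ) ≠ i := fun h => h2 (Fin.ext h)
        unfold arr
        split_ifs <;> first | rfl | (exfalso; omega)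

/-- The sequence of the mixed intersection numbers is log-concave. -/
lemma logConcave (hI : IsIntersection X I) {A H : Fin n → ℝ} (hA : A ∈ X.amp) (hH : H ∈ X.amp)
    {i : ℕ} (hi : i < d + 1) :
    I (arr d A H (i + 2)) * I (arr d A H i) ≤ I (arr d A H (i + 1)) ^ 2 := by
  obtain ⟨h1, h2, h3⟩ := arr_update (d := d) A H hi
  have h := hI.index (arr d A H (i + 1)) (arr_amp hA hH _) ⟨i, by omega⟩ ⟨i + 1, by omega⟩
    (by simp [Fin.ext_iff]) A hA H hH
  rw [h1, h2, h3] at h
  exact h

lemma arr_pos (hI : IsIntersection X I) {A H : Fin n → ℝ} (hA : A ∈ X.amp) (hA0 : A ≠ 0)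
    (hH : H ∈ X.amp) (hH0 : H ≠ 0) (i : ℕ) : 0 < I (arr d A H i) := by
  refine hI.pos _ fun j => ⟨arr_amp hA hH i j, ?_⟩
  unfold arr
  split_ifs
  · exact hA0
  · exact hH0

/-- The ratios decrease. -/
lemma ratio (hI : IsIntersection X I) {A H : Fin n → ℝ} (hA : A ∈ X.amp) (hA0 : A ≠ 0)
    (hH : H ∈ X.amp) (hH0 : H ≠ 0) (i : ℕ) (hi : i < d + 2) :
    I (arr d A H (i + 1)) * I (arr d A H 0) ≤ I (arr d A H 1) * I (arr d A H i) := by
  induction i with
  | zero => exact le_rfl
  | succ i ih =>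
    have h1 := ih (by omega)
    have h2 := logConcave hI hA hH (i := i) (by omega)
    have p0 := arr_pos hI hA hA0 hH hH0 i
    have p1 := arr_pos hI hA hA0 hH hH0 (i + 1)
    have p2 := arr_pos hI hA hA0 hH hH0 0
    refine le_of_mul_le_mul_right ?_ p0
    calc I (arr d A H (i + 1 + 1)) * I (arr d A H 0) * I (arr d A H i)
        = I (arr d A H (i + 2)) * I (arr d A H i) * I (arr d A H 0) := by ring
      _ ≤ I (arr d A H (i + 1)) ^ 2 * I (arr d A H 0) := mul_le_mul_of_nonneg_right h2 p2.le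
      _ = I (arr d A H (i + 1)) * (I (arr d A H (i + 1)) * I (arr d A H 0)) := by ring
      _ ≤ I (arr d A H (i + 1)) * (I (arr d A H 1) * I (arr d A H i)) :=
        mul_le_mul_of_nonneg_left h1 p1.le
      _ = I (arr d A H 1) * I (arr d A H (i + 1)) * I (arr d A H i) := by ring

/-- **The inequality of Khovanskii and Teissier.** -/
theorem kt (hI : IsIntersection X I) {A H : Fin n → ℝ} (hA : A ∈ X.amp) (hA0 : A ≠ 0)
    (hH : H ∈ X.amp) (hH0 : H ≠ 0) : top I A * top I H ^ (d + 1) ≤ mixed I A H ^ (d + 2) := by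
  have p0 := arr_pos hI hA hA0 hH hH0 0
  have p1 := arr_pos hI hA hA0 hH hH0 1
  have key : ∀ m, m ≤ d + 2 →
      I (arr d A H m) * I (arr d A H 0) ^ m ≤ I (arr d A H 1) ^ m * I (arr d A H 0) := by
    intro m
    induction m with
    | zero => intro _; simp
    | succ m ih =>
      intro hm
      have h1 := ih (by omega)
      have h2 := ratio hI hA hA0 hH hH0 m (by omega)
      calc I (arr d A H (m + 1)) * I (arr d A H 0) ^ (m + 1)
          = (I (arr d A H (m + 1)) * I (arr d A H 0)) * I (arr d A H 0) ^ m := by ring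
        _ ≤ (I (arr d A H 1) * I (arr d A H m)) * I (arr d A H 0) ^ m :=
          mul_le_mul_of_nonneg_right h2 (pow_pos p0 m).le
        _ = I (arr d A H 1) * (I (arr d A H m) * I (arr d A H 0) ^ m) := by ring
        _ ≤ I (arr d A H 1) * (I (arr d A H 1) ^ m * I (arr d A H 0)) :=
          mul_le_mul_of_nonneg_left h1 p1.le
        _ = I (arr d A H 1) ^ (m + 1) * I (arr d A H 0) := by ring
  have h := key (d + 2) le_rfl
  rw [arr_top, arr_zero, arr_one] at h
  rw [arr_zero] at p0
  refine le_of_mul_le_mul_right ?_ p0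
  unfold top mixed
  calc (I fun _ => A) * (I fun _ => H) ^ (d + 1) * (I fun _ => H)
      = (I fun _ => A) * (I fun _ => H) ^ (d + 2) := by ring
    _ ≤ _ := h

/-- **Equality in the inequality of Khovanskii and Teissier.** -/
theorem kt_eq (hI : IsIntersection X I) {A H : Fin n → ℝ} (hA : A ∈ X.amp) (hA0 : A ≠ 0)
    (hH : H ∈ X.amp) (hH0 : H ≠ 0) (h : top I A * top I H ^ (d + 1) = mixed I A H ^ (d + 2)) :
    ∃ c : ℝ, A = c • H := by
  by_contra hcon
  have p0 := arr_pos hI hA hA0 hH hH0 0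
  have p1 := arr_pos hI hA hA0 hH hH0 1
  have hs : I (arr d A H 2) * I (arr d A H 0) < I (arr d A H 1) ^ 2 := by
    refine lt_of_le_of_ne (logConcave hI hA hH (i := 0) (by omega)) fun he => hcon ?_
    obtain ⟨h1, h2, h3⟩ := arr_update (d := d) A H (i := 0) (by omega)
    refine hI.index_eq (arr d A H 1) (arr_amp hA hH _) ⟨0, by omega⟩ ⟨1, by omega⟩
      (by simp) A hA H hH ?_
    have h1' := congrArg I h1
    have h2' := congrArg I h2
    have h3' := congrArg I h3
    simp only [Nat.zero_add] at h1' h2' h3'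
    rw [h1', h2', h3']
    exact he
  have key : ∀ m, m ≤ d →
      I (arr d A H (m + 2)) * I (arr d A H 0) ^ (m + 2) <
        I (arr d A H 1) ^ (m + 2) * I (arr d A H 0) := by
    intro m
    induction m with
    | zero =>
      intro _
      calc I (arr d A H (0 + 2)) * I (arr d A H 0) ^ (0 + 2)
          = (I (arr d A H 2) * I (arr d A H 0)) * I (arr d A H 0) := by
            simp only [Nat.zero_add]; ring
        _ < I (arr d A H 1) ^ 2 * I (arr d A H 0) := mul_lt_mul_of_pos_right hs p0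
        _ = _ := by simp only [Nat.zero_add]
    | succ m ih =>
      intro hm
      have h1 := ih (by omega)
      have h2 := ratio hI hA hA0 hH hH0 (m + 2) (by omega)
      calc I (arr d A H (m + 1 + 2)) * I (arr d A H 0) ^ (m + 1 + 2)
          = (I (arr d A H (m + 2 + 1)) * I (arr d A H 0)) * I (arr d A H 0) ^ (m + 2) := by ring
        _ ≤ (I (arr d A H 1) * I (arr d A H (m + 2))) * I (arr d A H 0) ^ (m + 2) :=
          mul_le_mul_of_nonneg_right h2 (pow_pos p0 _).le
        _ = I (arr d A H 1) * (I (arr d A H (m + 2)) * I (arr d A H 0) ^ (m + 2)) := by ring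
        _ < I (arr d A H 1) * (I (arr d A H 1) ^ (m + 2) * I (arr d A H 0)) :=
          mul_lt_mul_of_pos_left h1 p1
        _ = I (arr d A H 1) ^ (m + 1 + 2) * I (arr d A H 0) := by ring
  have h4 := key d le_rfl
  rw [arr_top, arr_zero, arr_one] at h4
  unfold top mixed at h
  rw [← h] at h4
  have h5 : (I fun _ => A) * (I fun _ => H) ^ (d + 1) * (I fun _ => H) =
      (I fun _ => A) * (I fun _ => H) ^ (d + 2) := by ring
  rw [h5] at h4
  exact lt_irrefl _ h4

/-- The weight of `H` increases. -/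
theorem lt_of_ne (hX : X.IsPair) (hI : IsIntersection X I) (hH : H ∈ X.amp) (hV : 0 < top I H)
    {H' : Fin n → ℝ} (hH' : H' ∈ X.amp) (hV' : 0 < top I H') {g : X.Aut}
    (hg : ∀ c : ℝ, X.push g H ≠ c • H') :
    mixed I H H / root I H < mixed I (X.push g H) H' / root I H' := by
  have hA : X.push g H ∈ X.amp := hX.push_amp g H hH
  have hA0 := push_ne_zero hI hV g
  have hM : 0 < mixed I (X.push g H) H' := hI.nef _ (amp_nef X hA) hA0 H' hH'
  have hlt : top I H * top I H' ^ (d + 1) < mixed I (X.push g H) H' ^ (d + 2) := by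
    have h1 := kt hI hA hA0 hH' (ne_zero hV')
    rw [top_push hI] at h1
    refine lt_of_le_of_ne h1 fun h2 => ?_
    obtain ⟨c, hc⟩ := kt_eq hI hA hA0 hH' (ne_zero hV') (by rw [top_push hI]; exact h2)
    exact hg c hc
  rw [div_lt_div_iff₀ (root_pos hV) (root_pos hV'), mixed_self]
  refine lt_of_pow_lt_pow_left₀ (d + 2) (mul_nonneg hM.le (root_pos hV).le) ?_
  rw [mul_pow, mul_pow, root_pow hV, root_pow hV', pow_succ (top I H) (d + 1)]
  calc top I H ^ (d + 1) * top I H * top I H' ^ (d + 1)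
      = top I H ^ (d + 1) * (top I H * top I H' ^ (d + 1)) := by ring
    _ < top I H ^ (d + 1) * mixed I (X.push g H) H' ^ (d + 2) :=
      mul_lt_mul_of_pos_left hlt (pow_pos hV (d + 1))
    _ = mixed I (X.push g H) H' ^ (d + 2) * top I H ^ (d + 1) := by ring

/-- An automorphism which maps `H` to a multiple of `H` fixes `H`. -/
theorem eq_of_smul (hX : X.IsPair) (hI : IsIntersection X I) (hH : H ∈ X.amp) (hV : 0 < top I H)
    {g : X.Aut} {c : ℝ} (hg : X.push g H = c • H) : X.push g H = H := by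
  have key : ∀ (g : X.Aut) (c : ℝ), X.push g H = c • H → 1 ≤ c := by
    intro g c hg
    have hA : X.push g H ∈ X.amp := hX.push_amp g H hH
    have hM : 0 < mixed I (X.push g H) H :=
      hI.nef _ (amp_nef X hA) (push_ne_zero hI hV g) H hH
    have h1 := kt hI hA (push_ne_zero hI hV g) hH (ne_zero hV)
    rw [top_push hI] at h1
    rw [hg, mixed_smul, mixed_self] at hM h1
    have hc : 0 < c := by
      by_contra hc
      push Not at hc
      have := mul_nonpos_of_nonpos_of_nonneg hc hV.le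
      linarith
    have h2 : top I H ^ (d + 2) ≤ (c * top I H) ^ (d + 2) := by
      rw [pow_succ, mul_comm]
      exact h1
    have h3 : top I H ≤ c * top I H :=
      le_of_pow_le_pow_left₀ (Nat.succ_ne_zero (d + 1)) hM.le h2
    by_contra h4
    push Not at h4
    have h5 : c * top I H < 1 * top I H := mul_lt_mul_of_pos_right h4 hV
    linarith
  have h1 := key g c hg
  have hc0 : c ≠ 0 := by linarith
  have h2 : X.push g⁻¹ H = c⁻¹ • H := by
    have h3 : X.push g⁻¹ (X.push g H) = H := by rw [← hX.mul, inv_mul_cancel, hX.one]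
    rw [hg, map_smul] at h3
    rw [← h3, smul_smul, inv_mul_cancel₀ hc0, one_smul, h3]
  have h3 := key g⁻¹ c⁻¹ h2
  have h4 : c = 1 := by
    have h5 : c ≤ 1 := by
      have h6 : c * 1 ≤ c * c⁻¹ := mul_le_mul_of_nonneg_left h3 (by linarith)
      rwa [mul_one, mul_inv_cancel₀ hc0] at h6
    linarith
  rw [hg, h4, one_smul]

/-- An automorphism which fixes the hyperplane `m = 0` pointwise and acts nontrivially. -/
theorem isWall_of_fix (hX : X.IsPair) (hI : IsIntersection X I) (hH : H ∈ X.amp)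
    (Λ : Finset ((Fin n → ℝ) →ₗ[ℝ] ℝ)) {m : (Fin n → ℝ) →ₗ[ℝ] ℝ} (hm : 0 < m H)
    {g : X.Aut} (hg : ∀ x, m x = 0 → X.push g x = x) (hg1 : X.push g ≠ LinearMap.id) :
    IsWall X I H Λ m g H := by
  have hH0 : H ≠ 0 := by
    rintro rfl
    simp at hm
  have hV := top_pos hI hH hH0
  refine ⟨hm, fun c hc => hg1 (LinearMap.ext fun y => ?_), fun x _ hx _ => by rw [hg x hx]⟩
  have hc' := eq_of_smul hX hI hH hV hc
  have h6 : m (y - (m y / m H) • H) = 0 := by
    rw [map_sub, map_smul, smul_eq_mul, div_mul_cancel₀ _ hm.ne', sub_self]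
  have h7 := hg _ h6
  rw [map_sub, map_smul, hc'] at h7
  rw [LinearMap.id_apply]
  exact sub_left_injective h7

/-- `x ↦ N x · H^(dim X - 1)` is a degree. -/
theorem exists_degree (hI : IsIntersection X I) (hH : H ∈ X.amp) (hHi : IsInt H) :
    ∃ (N : ℝ) (deg : (Fin n → ℝ) →ₗ[ℝ] ℝ), 0 < N ∧ X.IsDegree deg ∧ ∀ x, deg x = N * mixed I x H := by
  obtain ⟨N, hN, hb⟩ := hI.bounded
  have hN' : (0 : ℝ) < N := by exact_mod_cast hN
  refine ⟨N, (N : ℝ) • I.toLinearMap (fun _ => H) 0, hN', ⟨?_, ?_, ?_⟩, fun x => rfl⟩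
  · intro x hx
    refine hb _ fun i => ?_
    by_cases hi : i = 0
    · subst hi
      rw [Function.update_self]
      exact hx
    · rw [Function.update_of_ne hi]
      exact hHi
  · intro x hx
    exact mul_nonneg hN'.le (hI.eff x hx H hH)
  · intro x hx hx0
    exact mul_pos hN' (hI.nef x hx hx0 H hH)

/-- The criterion. -/
theorem criterion (hX : X.IsPair) (hI : IsIntersection X I) {ι : Type} [Finite ι] [Nonempty ι]
    (H : ι → (Fin n → ℝ)) (B : Subgroup X.Aut) (S : ι → Finset (Fin n → ℝ))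
    (Λ : ι → Finset ((Fin n → ℝ) →ₗ[ℝ] ℝ))
    (h : ∀ i, H i ∈ X.amp ∧ IsInt (H i) ∧ H i ≠ 0 ∧ IsChamber X (S i) (Λ i))
    (hwall : ∀ i, ∀ m ∈ Λ i, (∀ x ∈ X.Nef, 0 ≤ m x) ∨
      ∃ j, ∃ g ∈ B, IsWall X I (H i) (Λ i) m g (H j)) :
    X.Nef ∩ X.Eff = (⋃ i, ⋃ g ∈ B, X.push g '' cone (S i : Set (Fin n → ℝ))) ∧
      X.NefConeConjecture := by
  have hdeg : ∀ i, ∃ (N : ℝ) (deg : (Fin n → ℝ) →ₗ[ℝ] ℝ), 0 < N ∧ X.IsDegree deg ∧
      ∀ x, deg x = N * mixed I x (H i) := fun i => exists_degree hI (h i).1 (h i).2.1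
  choose N deg hN hdeg hd using hdeg
  have hV : ∀ i, 0 < top I (H i) := fun i => top_pos hI (h i).1 (h i).2.2.1
  have hr : ∀ i, 0 < root I (H i) := fun i => root_pos (hV i)
  have hw : ∀ i x, (N i * root I (H i))⁻¹ * deg i x = mixed I x (H i) / root I (H i) := by
    intro i x
    have h1 := (hN i).ne'
    have h2 := (hr i).ne'
    rw [hd]
    field_simp
  refine Pool.Agent.H28.MC.chambers hX.toMov deg (fun i => (hdeg i).toMov)
    (fun i => (N i * root I (H i))⁻¹) (fun i => inv_pos.2 (mul_pos (hN i) (hr i))) B S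
    (fun i => (h i).2.2.2.1) Λ (fun i => (h i).2.2.2.2) H (fun i => amp_nef X (h i).1)
    fun i m hm => ?_
  rcases hwall i m hm with h1 | ⟨j, g, hg, h1, h2, h3⟩
  · exact Or.inl h1
  · refine Or.inr ⟨h1, j, g, hg, ?_, fun x hx hx0 hxΛ => ?_⟩
    · show (N i * root I (H i))⁻¹ * deg i (H i) < (N j * root I (H j))⁻¹ * deg j (X.push g (H i))
      rw [hw, hw]
      exact lt_of_ne hX hI (h i).1 (hV i) (h j).1 (hV j) h2
    · show (N j * root I (H j))⁻¹ * deg j (X.push g x) ≤ (N i * root I (H i))⁻¹ * deg i x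
      rw [hw, hw]
      exact h3 x hx hx0 hxΛ

/-- The converse. -/
theorem converse (hX : X.IsPair) (hI : IsIntersection X I) (hH : H ∈ X.amp) (hHi : IsInt H)
    (hH0 : H ≠ 0) (h : X.NefConeConjecture) :
    ∃ (S : Finset (Fin n → ℝ)) (Λ : Finset ((Fin n → ℝ) →ₗ[ℝ] ℝ)), IsChamber X S Λ ∧
      ∀ m ∈ Λ, ∃ g : X.Aut, IsWall X I H Λ m g H := by
  classical
  have hV := top_pos hI hH hH0
  obtain ⟨N, deg, hN, hdeg, hd⟩ := exists_degree hI hH hHi
  obtain ⟨F, S, hc, -⟩ := hX.toMov.exists_certificate hdeg.toMov h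
  refine ⟨S, (F.filter fun g => X.push g H ≠ H).image fun g => deg ∘ₗ X.push g - deg,
    ⟨hc.1, fun x hx hxΛ => hc.2 ⟨hx, fun g hg => ?_⟩⟩, fun m hm => ?_⟩
  · show deg x ≤ deg (X.push g x)
    by_cases hgH : X.push g H = H
    · have h1 := mixed_push hI g x H
      rw [hgH] at h1
      rw [hd, hd, h1]
    · have h2 := hxΛ _ (Finset.mem_image_of_mem (fun g => deg ∘ₗ X.push g - deg)
        (Finset.mem_filter.2 ⟨hg, hgH⟩))
      have h3 : 0 ≤ deg (X.push g x) - deg x := h2
      linarith
  · obtain ⟨g, hg, rfl⟩ := Finset.mem_image.1 hm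
    obtain ⟨-, hgH⟩ := Finset.mem_filter.1 hg
    have hgc : ∀ c : ℝ, X.push g H ≠ c • H := fun c hc => hgH (eq_of_smul hX hI hH hV hc)
    refine ⟨g, ?_, hgc, fun x _ hx _ => ?_⟩
    · show 0 < deg (X.push g H) - deg H
      have h4 := lt_of_ne hX hI hH hV hH hV hgc
      rw [div_lt_div_iff_of_pos_right (root_pos hV)] at h4
      have h5 := mul_lt_mul_of_pos_left h4 hN
      rw [hd, hd]
      linarith
    · have h5 : deg (X.push g x) - deg x = 0 := hx
      rw [hd, hd] at h5
      have h6 : N * (mixed I (X.push g x) H - mixed I x H) = 0 := by rw [mul_sub]; exact h5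
      rcases mul_eq_zero.1 h6 with h7 | h7
      · exact absurd h7 hN.ne'
      · have h8 : mixed I (X.push g x) H = mixed I x H := by linarith
        rw [h8]

/-- **A wall criterion for the nef cone conjecture.** Let `(X, Δ)` be a pair, `Z` a point, `dim X ≥ 2`, with
intersection numbers `I`.

(1) Let `B` be a group of automorphisms and suppose that there are finitely many chambers, given by finite
sets `S i` of integral classes in the effective nef cone and finite sets `Λ i` of linear forms, with ample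
integral classes `H i ≠ 0`, such that for each `m ∈ Λ i`, `m` is nonnegative on the nef cone, or `m (H i) > 0`
and for some chamber `j` and some `g ∈ B`, `g (H i)` is not a multiple of `H j`, and
`w_j(g x) ≤ w_i(x)` for the classes `x` in the wall `m = 0` of the chamber `i`, where
`w_i(x) = x · (H i)^(N-1) / ((H i)^N)^((N-1)/N)`, `N = d + 2 = dim X`. Then the images of the cones generated by the `S i` under
`B` cover the effective nef cone, and the nef cone conjecture holds for `(X, Δ)`.

(2) If the nef cone conjecture holds for `(X, Δ)`, then for each ample integral `H ≠ 0` there is such a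
family with one chamber.

(3) The condition on the wall `m = 0` holds with `j = i` if `m (H i) > 0` and all classes `x` with `m x = 0`
are fixed by `g`, and `g_* ≠ 1`. -/
theorem result {n d : ℕ} (X : Pair n) (hX : X.IsPair)
    (I : MultilinearMap ℝ (fun _ : Fin (d + 2) => (Fin n → ℝ)) ℝ) (hI : IsIntersection X I) :
    (∀ (ι : Type) [Finite ι] [Nonempty ι] (H : ι → (Fin n → ℝ)) (B : Subgroup X.Aut)
      (S : ι → Finset (Fin n → ℝ)) (Λ : ι → Finset ((Fin n → ℝ) →ₗ[ℝ] ℝ)),
      (∀ i, H i ∈ X.amp ∧ IsInt (H i) ∧ H i ≠ 0 ∧ IsChamber X (S i) (Λ i)) →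
      (∀ i, ∀ m ∈ Λ i, (∀ x ∈ X.Nef, 0 ≤ m x) ∨
        ∃ j, ∃ g ∈ B, IsWall X I (H i) (Λ i) m g (H j)) →
      X.Nef ∩ X.Eff = (⋃ i, ⋃ g ∈ B, X.push g '' cone (S i : Set (Fin n → ℝ))) ∧
        X.NefConeConjecture) ∧
    ∀ H ∈ X.amp, IsInt H → H ≠ 0 →
      (X.NefConeConjecture →
        ∃ (S : Finset (Fin n → ℝ)) (Λ : Finset ((Fin n → ℝ) →ₗ[ℝ] ℝ)), IsChamber X S Λ ∧
          ∀ m ∈ Λ, ∃ g : X.Aut, IsWall X I H Λ m g H) ∧
      ∀ (Λ : Finset ((Fin n → ℝ) →ₗ[ℝ] ℝ)) (m : (Fin n → ℝ) →ₗ[ℝ] ℝ) (g : X.Aut), 0 < m H →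
        (∀ x, m x = 0 → X.push g x = x) → X.push g ≠ LinearMap.id → IsWall X I H Λ m g H :=
  ⟨fun _ _ _ H B S Λ h hw => criterion hX hI H B S Λ h hw,
    fun _ hH hHi hH0 => ⟨converse hX hI hH hHi hH0,
      fun Λ _ _ hm hg hg1 => isWall_of_fix hX hI hH Λ hm hg hg1⟩⟩

end Pool.Agent.Results.MP_20d318_ag.ReflectionCriterion
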