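import Pool.Agent.H93.TR.MK

/-!
# The nef cone conjecture for primitive symplectic varieties which are singular in codimension two

Let `X` be a `ℚ`-factorial projective primitive symplectic variety, and `M → X` a `ℚ`-factorial
terminalization with `b₂(M) ≥ 5`. Then `(X, 0)` is a klt Calabi-Yau pair. Let `q` be the
Beauville-Bogomolov-Fujiki form of `M`. We consider `N¹(X)` as a subspace of `N¹(M)` by pull-back; it is the
space of the classes orthogonal to the divisors contracted by `M → X`.

A class `e ∈ H²(M, ℤ)` is called exceptional if it is a multiple of a stably prime exceptional class:
`q(e) < 0`, and on all locally trivial deformations of `M` on which `e` is of type `(1,1)` and has positive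
product with a Kähler class, a multiple of `e` is effective, and the same for `-e`. The divisors
contracted by `M → X` are examples; there are contracted divisors if and only if `X` is singular in
codimension two.

**Theorem.** Suppose that `X` is singular in codimension two, or, more generally, that for all nonzero
integral nef classes `l` on `M` with `q(l) = 0` which are orthogonal to the contracted divisors there is an
exceptional class `e` of type `(1,1)` with `q(l, e) = 0`. Then the Morrison-Kawamata nef cone conjecture
holds for `X`: the group `Aut(X)` acts on the effective nef cone `Nef(X) ∩ Eff(X)` with a rational polyhedral
fundamental domain.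

There is no assumption on the dimension. For terminal `X` Lehn, Mongardi and Pacienza proved the version of
the conjecture for the cone `Nef⁺(X)` spanned by the integral nef classes. It contains
`Nef(X) ∩ Eff(X)`, and it is equal to it if and only if nef line bundles have nonnegative Iitaka
dimension, which is open in general for classes `l` with `q(l) = 0`.

Proof. 1. Nonvanishing: let `l ≠ 0` be integral and nef with `q(l) = 0`, and `e` an exceptional class of type
`(1,1)` with `q(l, e) = 0`. The monodromy group contains powers of the Eichler transvections along `l`, and
they map `± e` to `± e + c l`. So for large `c` multiples of `e + c l` and of `- e + c l` are effective, and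
so is a multiple of their sum `2 c l`.

2. The classes in `Nef⁺(M)` orthogonal to the contracted divisors are a face `F` of `Nef⁺(M)`, since nef
classes have nonnegative products with prime divisors. By 1, `F` is the effective nef cone of `X`.

3. If a group acts on a convex cone with a rational polyhedral fundamental domain, then the stabiliser of a
face acts on the face with a rational polyhedral fundamental domain. The automorphisms of `M` which
preserve `F` descend to `X`.
-/

set_option autoImplicit false

universe u

namespace Pool.Agent.Results.MP_20d318_ag.SymplecticVarieties

open Pool.Agent.Q50.HK Pool.Agent.H93.TR Pool.Agent.W539.Cone

/-- **The nef cone conjecture for primitive symplectic varieties.** Let `X` be a `ℚ`-factorial projective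
primitive symplectic variety, `M → X` a `ℚ`-factorial terminalization with `b₂(M) ≥ 5`. If `M → X` contracts
a divisor, or if for all integral nef isotropic classes `l ≠ 0` on `M` orthogonal to the contracted
divisors there is an exceptional class of type `(1,1)` orthogonal to `l`, then `Aut(X)` acts on the
effective nef cone of `X` with a rational polyhedral fundamental domain. -/
theorem result (S : SymplecticC.{u}) (hS : S.Facts) (X : S.Var) (hX : S.Factorial X)
    (h : (S.contracted X).Nonempty ∨ ∀ l, (S.T X).NefIsotropic (S.term X) l →
      (∀ P ∈ S.contracted X, (S.T X).B ((S.T X).cls (S.term X) P) l = 0) →
      ((S.T X).Exc (S.term X) l).Nonempty) :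
    HasFundDomain (S.latX X) (S.nefEff X) (S.autX X) :=
  SymplecticC.nef_cone hS hX h

end Pool.Agent.Results.MP_20d318_ag.SymplecticVarieties
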